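import Pool.Agent.R789.CantorMap
import Pool.Agent.R789.Wreath

/-!
# MP_ac6992_gt, Q1: the negated form holds

`S` is the plane minus a Cantor set `C`. The definitions of oriented surfaces, of
orientation-preserving homeomorphisms and of the mapping class group `Map S` are those of
`Pool/Agent/H659R3/BigMCG/Defs.lean`; the surface structure `planeSurface` on the complement of a
closed subset of the plane (the inclusion is the only chart) is in `Pool/Agent/R789/Plane.lean`;
`Amenable` and `QTilde H = Q(H) / Hom(H, ℝ)` are in `Pool/Agent/R789/QMor.lean`.

All Cantor sets in the plane are ambiently homeomorphic, so that the group does not depend on the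
choice of `C`.

Idea of the proof. Every order automorphism of a countable dense linear order `X` without end
points acts on the real axis with an invariant Cantor set whose gaps are indexed by `X`, and so on
the plane; this embeds the group of order automorphisms of `X` into `Map S`, because an isotopy
cannot move the ends of `S`. For `X = ℤ ×ₗ ℚ` let `a` and `b` be two piecewise linear ping-pong
partners acting on the copy of `ℚ` over zero and `τ` the shift of `ℤ`. The group generated by `a`,
`b`, `τ` is a wreath product with `ℤ` of the (free) group generated by `a` and `b`. It is not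
amenable by ping-pong, and a product of `n` commuting conjugates of an element gives
`n |φ(xy) - φ(x) - φ(y)| ≤ D` for each homogeneous quasimorphism `φ` of defect `D`.
-/

set_option autoImplicit false

open Pool.Agent.R789 Pool.Agent.H659R3.BigMCG

namespace Pool.Agent.Results.MP_ac6992_gt.WreathSubgroup

/-- For a Cantor set `C` in the plane the mapping class group of the plane minus `C` has a finitely
generated subgroup `H` which is not amenable and for which the space `Q(H) / Hom(H, ℝ)` of
homogeneous quasimorphisms modulo homomorphisms vanishes. -/
theorem result :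
    ∃ (C : Set ℂ) (hC : IsClosed C) (hc : ConnectedSpace ↥(Cᶜ)),
      Nonempty (↥C ≃ₜ (ℕ → Bool)) ∧
      ∃ H : Subgroup (@Map ↥(Cᶜ) _ (planeSurface C hC hc)),
        H.FG ∧ ¬ Amenable H ∧ Subsingleton (QTilde H) := by
  obtain ⟨W⟩ := exists_wt XX
  let _ := surfK W
  refine ⟨onAxis W.K, closedK W, connK W, cantorK W, GG.map (toMapK W), ?_, ?_, ?_⟩
  · refine (Subgroup.fg_iff _).2 ⟨toMapK W '' {ga, gb, sh 1}, ?_, Set.toFinite _⟩
    rw [← MonoidHom.map_closure]; rfl
  · intro h
    exact GG_not_amenable (h.of_equiv
      (GG.equivMapOfInjective (toMapK W) (toMapK_injective W)).symm)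
  · refine qTilde_subsingleton fun φ hφ g h => ?_
    let e := GG.equivMapOfInjective (toMapK W) (toMapK_injective W)
    have hφ' : (fun x => φ (e x)) ∈ QuasiMor GG := by
      obtain ⟨⟨D, hD⟩, hh⟩ := hφ
      refine ⟨⟨D, fun x y => ?_⟩, fun x n => ?_⟩
      · simp only [map_mul]; exact hD _ _
      · simp only [map_zpow]; exact hh _ _
    have := GG_qm _ hφ' (e.symm g) (e.symm h)
    simpa using this

end Pool.Agent.Results.MP_ac6992_gt.WreathSubgroup
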